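import Mathlib

/-!
# Permutation groups defined by coloured digraphs but not by coloured hypergraphs
-/

set_option autoImplicit false

universe u

namespace Pool.Agent.D0H74.DGR

variable {V : Type u}

theorem inv_ap (f : Equiv.Perm V) (x : V) : f⁻¹ (f x) = x := f.symm_apply_apply x

theorem ap_inv (f : Equiv.Perm V) (x : V) : f (f⁻¹ x) = x := f.apply_symm_apply x

/-- `A` is in the class `DGR`: it is the automorphism group of a coloured digraph `c` on `V` (only
the values of `c` on the pairs `(x, y)` with `x ≠ y` matter). -/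
def IsDGR (A : Subgroup (Equiv.Perm V)) : Prop :=
  ∃ (C : Type u) (c : V → V → C), ∀ σ : Equiv.Perm V,
    σ ∈ A ↔ ∀ x y : V, x ≠ y → c (σ x) (σ y) = c x y

/-- `A` is in the class `BGR`: it is the automorphism group of a coloured hypergraph `h` on `V`. -/
def IsBGR (A : Subgroup (Equiv.Perm V)) : Prop :=
  ∃ (C : Type u) (h : Set V → C), ∀ σ : Equiv.Perm V,
    σ ∈ A ↔ ∀ U : Set V, h (σ '' U) = h U

/-- If `A` is not in `BGR`, some permutation outside `A` preserves all the orbits of `A` on the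
subsets of `V`. -/
theorem exists_of_not_isBGR {A : Subgroup (Equiv.Perm V)} (hA : ¬ IsBGR A) :
    ∃ b : Equiv.Perm V, b ∉ A ∧ ∀ U : Set V, ∃ a ∈ A, a '' U = b '' U := by
  by_contra hcon
  push Not at hcon
  apply hA
  refine ⟨Set (Set V), fun U => {W | ∃ a ∈ A, a '' U = W}, fun σ => ⟨?_, ?_⟩⟩
  · intro hσ U
    ext W
    constructor
    · rintro ⟨a, ha, rfl⟩
      refine ⟨a * σ, A.mul_mem ha hσ, ?_⟩
      rw [Equiv.Perm.coe_mul, Set.image_comp]
    · rintro ⟨a, ha, rfl⟩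
      refine ⟨a * σ⁻¹, A.mul_mem ha (A.inv_mem hσ), ?_⟩
      rw [← Set.image_comp, ← Equiv.Perm.coe_mul, inv_mul_cancel_right]
  · intro h
    by_contra hσ
    obtain ⟨U, hU⟩ := hcon σ hσ
    have h1 : (σ '' U) ∈ {W | ∃ a ∈ A, a '' (σ '' U) = W} := ⟨1, A.one_mem, by simp⟩
    have h2 : {W | ∃ a ∈ A, a '' (σ '' U) = W} = {W | ∃ a ∈ A, a '' U = W} := h U
    rw [h2] at h1
    obtain ⟨a, ha, haU⟩ := h1
    exact hU a ha haU

/-- The orbit of the pair `(x, y)` under `A`. -/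
def Rel (A : Subgroup (Equiv.Perm V)) (x y u v : V) : Prop := ∃ a ∈ A, a x = u ∧ a y = v

section core

variable {A : Subgroup (Equiv.Perm V)} {x y : V}

theorem rel_self : Rel A x y x y := ⟨1, A.one_mem, rfl, rfl⟩

theorem Rel.map {u v : V} (h : Rel A x y u v) {a : Equiv.Perm V} (ha : a ∈ A) :
    Rel A x y (a u) (a v) := by
  obtain ⟨a', ha', rfl, rfl⟩ := h
  exact ⟨a * a', A.mul_mem ha ha', rfl, rfl⟩

theorem rel_map_iff {u v : V} {a : Equiv.Perm V} (ha : a ∈ A) :
    Rel A x y (a u) (a v) ↔ Rel A x y u v := by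
  constructor
  · intro h
    have := h.map (A.inv_mem ha)
    rwa [inv_ap, inv_ap] at this
  · intro h
    exact h.map ha

/-- The first conclusions: there are `x ≠ y` and `a ∈ A` with `b x = a y`, `b y = a x`, and `(y, x)`
is not in the orbit of `(x, y)`. -/
theorem exists_pair (hA : IsDGR A) {b : Equiv.Perm V} (hb : b ∉ A)
    (hbU : ∀ U : Set V, ∃ a ∈ A, a '' U = b '' U) :
    ∃ x y : V, (¬ Rel A x y y x) ∧ ∃ a ∈ A, b x = a y ∧ b y = a x := by
  obtain ⟨C, c, hc⟩ := hA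
  rw [hc] at hb
  push Not at hb
  obtain ⟨x, y, hxy, hne⟩ := hb
  obtain ⟨a, ha, haU⟩ := hbU {x, y}
  rw [Set.image_pair, Set.image_pair] at haU
  have hcx : c (a x) (a y) = c x y := (hc a).1 ha x y hxy
  have h1 : b x = a y ∧ b y = a x := by
    rcases Set.pair_eq_pair_iff.1 haU with ⟨h1, h2⟩ | ⟨h1, h2⟩
    · exfalso
      apply hne
      rw [← h1, ← h2, hcx]
    · exact ⟨h2.symm, h1.symm⟩
  refine ⟨x, y, ?_, a, ha, h1⟩
  rintro ⟨a', ha', h2, h3⟩
  apply hne
  rw [h1.1, h1.2, (hc a).1 ha y x hxy.symm]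
  have h4 := (hc a').1 ha' x y hxy
  rw [h2, h3] at h4
  exact h4

theorem rel_asymm (h : ¬ Rel A x y y x) {u v : V} (h1 : Rel A x y u v) : ¬ Rel A x y v u := by
  rintro ⟨a', ha', h2, h3⟩
  obtain ⟨a, ha, rfl, rfl⟩ := h1
  apply h
  refine ⟨a⁻¹ * a', A.mul_mem (A.inv_mem ha) ha', ?_, ?_⟩
  · rw [Equiv.Perm.mul_apply, h2, inv_ap]
  · rw [Equiv.Perm.mul_apply, h3, inv_ap]

/-- The out-neighbourhood of `u`. -/
def Nb (A : Subgroup (Equiv.Perm V)) (x y u : V) : Set V := {v | Rel A x y u v}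

theorem image_Nb {a : Equiv.Perm V} (ha : a ∈ A) (u : V) :
    a '' Nb A x y u = Nb A x y (a u) := by
  ext v
  constructor
  · rintro ⟨w, hw, rfl⟩
    exact Rel.map hw ha
  · intro hv
    refine ⟨a⁻¹ v, ?_, ap_inv a v⟩
    have h := Rel.map hv (A.inv_mem ha)
    rw [inv_ap] at h
    exact h

/-- The key step: every out-neighbourhood has at most one point. -/
theorem eq_of_rel (hR : ¬ Rel A x y y x) {b : Equiv.Perm V}
    (hbU : ∀ U : Set V, ∃ a ∈ A, a '' U = b '' U) (hab : ∃ a ∈ A, b x = a y ∧ b y = a x) :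
    ∀ v, Rel A x y x v → v = y := by
  have hirr : ∀ u, ¬ Rel A x y u u := fun u h => rel_asymm hR h h
  -- some out-neighbourhood is not mapped to the expected one
  obtain ⟨u, hu⟩ : ∃ u, b '' Nb A x y u ≠ Nb A x y (b u) := by
    by_contra hcon
    push Not at hcon
    obtain ⟨a, ha, h1, h2⟩ := hab
    have h3 : b y ∈ Nb A x y (b x) := by
      rw [← hcon x]
      exact ⟨y, rel_self, rfl⟩
    rw [h1, h2] at h3
    exact hR ((rel_map_iff ha).1 h3)
  obtain ⟨a₁, ha₁, h1⟩ := hbU (Nb A x y u)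
  obtain ⟨a₂, ha₂, h2⟩ := hbU (insert u (Nb A x y u))
  rw [image_Nb ha₁] at h1
  rw [Set.image_insert_eq, Set.image_insert_eq, image_Nb ha₂, ← h1] at h2
  set p := a₁ u with hp
  set q := a₂ u with hq
  have hbu : b u ∉ Nb A x y p := by
    rw [h1]
    rintro ⟨w, hw, hwu⟩
    rw [b.injective hwu] at hw
    exact hirr u hw
  have hqb : q ≠ b u := by
    intro hqb
    apply hu
    rw [← h1, ← hqb]
    have hqq : q ∉ Nb A x y q := hirr q
    have h3 : insert q (Nb A x y q) \ {q} = Nb A x y q := Set.insert_sdiff_self_of_notMem hqq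
    rw [← h3, h2, hqb, Set.insert_sdiff_self_of_notMem hbu]
  have hqp : Rel A x y p q := by
    have h3 : q ∈ insert (b u) (Nb A x y p) := by
      rw [← h2]
      exact Set.mem_insert q _
    rcases h3 with h3 | h3
    · exact absurd h3 hqb
    · exact h3
  have hdom : ∀ v, Rel A x y p v → v ≠ q → Rel A x y q v := by
    intro v hv hvq
    have h3 : v ∈ insert q (Nb A x y q) := by
      rw [h2]
      exact Set.mem_insert_of_mem _ hv
    rcases h3 with h3 | h3
    · exact absurd h3 hvq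
    · exact h3
  have hp1 : ∀ v, Rel A x y p v → v = q := by
    intro v hv
    by_contra hvq
    obtain ⟨c₁, hc₁, h3, h4⟩ := hqp
    obtain ⟨c₂, hc₂, h5, h6⟩ := id hv
    -- `a` fixes `p` and maps `q` to `v`
    have ha : c₂ * c₁⁻¹ ∈ A := A.mul_mem hc₂ (A.inv_mem hc₁)
    have hap : (c₂ * c₁⁻¹) p = p := by
      rw [← h3, Equiv.Perm.mul_apply, inv_ap, h5, h3]
    have haq : (c₂ * c₁⁻¹) q = v := by
      rw [← h4, Equiv.Perm.mul_apply, inv_ap, h6]
    set a := c₂ * c₁⁻¹ with hadef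
    have h7 : Rel A x y p (a⁻¹ q) := by
      have := Rel.map (⟨c₁, hc₁, h3, h4⟩ : Rel A x y p q) (A.inv_mem ha)
      rwa [show a⁻¹ p = p by rw [Equiv.Perm.inv_eq_iff_eq]; exact hap.symm] at this
    have h8 : a⁻¹ q ≠ q := by
      intro h
      rw [Equiv.Perm.inv_eq_iff_eq, haq] at h
      exact hvq h.symm
    have h9 := (hdom _ h7 h8).map ha
    rw [haq, ap_inv] at h9
    exact rel_asymm hR h9 (hdom v hv hvq)
  obtain ⟨c₁, hc₁, h3, h4⟩ := hqp
  intro v hv
  have h5 : Rel A x y (c₁ x) (c₁ v) := hv.map hc₁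
  rw [h3] at h5
  have h6 := hp1 _ h5
  rw [← h4] at h6
  exact c₁.injective h6

end core

end Pool.Agent.D0H74.DGR
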