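import Pool.Agent.D0H74.DGR.Core

/-!
# The centralizing permutation
-/

set_option autoImplicit false

universe u

namespace Pool.Agent.D0H74.DGR

variable {V : Type u}

theorem comm_ap {a f : Equiv.Perm V} (h : a * f = f * a) (u : V) : a (f u) = f (a u) :=
  congrArg (fun g : Equiv.Perm V => g u) h

theorem comm_pow {a f : Equiv.Perm V} (h : a * f = f * a) (k : ℕ) (u : V) :
    a ((f ^ k) u) = (f ^ k) (a u) := by
  have h1 : Commute a (f ^ k) := (show Commute a f from h).pow_right k
  exact comm_ap h1 u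

/-- Existence of a permutation commuting with `A`, supported on the orbit of `x` and mapping `x` to
`y`, if `A_x` fixes `y` and `y` is in the orbit of `x`. -/
theorem exists_centralizing [Finite V] (A : Subgroup (Equiv.Perm V)) (x y : V)
    (hfix : ∀ v, Rel A x y x v → v = y) (hk : ∃ k ∈ A, k x = y) :
    ∃ f : Equiv.Perm V, (∀ a ∈ A, a * f = f * a) ∧ f x = y ∧
      ∀ u, (¬ ∃ a ∈ A, a x = u) → f u = u := by
  classical
  obtain ⟨k, hkA, hky⟩ := hk
  let F : V → V := fun u => if h : ∃ a ∈ A, a x = u then h.choose y else u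
  have hF : ∀ a ∈ A, F (a x) = a y := by
    intro a ha
    have h : ∃ a' ∈ A, a' x = a x := ⟨a, ha, rfl⟩
    have h1 : F (a x) = h.choose y := dif_pos h
    obtain ⟨h2, h3⟩ := h.choose_spec
    set a' := h.choose with ha'
    rw [h1]
    have h4 : Rel A x y x ((a⁻¹ * a') y) := by
      refine ⟨a⁻¹ * a', A.mul_mem (A.inv_mem ha) h2, ?_, rfl⟩
      rw [Equiv.Perm.mul_apply, h3, inv_ap]
    have h5 := hfix _ h4
    rw [Equiv.Perm.mul_apply] at h5
    rw [← ap_inv a (a' y), h5]
  have hF' : ∀ u, (¬ ∃ a ∈ A, a x = u) → F u = u := fun u hu => dif_neg hu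
  have hsurj : Function.Surjective F := by
    intro u
    by_cases hu : ∃ a ∈ A, a x = u
    · obtain ⟨a, ha, rfl⟩ := hu
      refine ⟨(a * k⁻¹) x, ?_⟩
      rw [hF _ (A.mul_mem ha (A.inv_mem hkA)), Equiv.Perm.mul_apply, ← hky, inv_ap]
    · exact ⟨u, hF' u hu⟩
  have hbij : Function.Bijective F := Finite.injective_iff_bijective.1
    (Finite.injective_iff_surjective.2 hsurj)
  refine ⟨Equiv.ofBijective F hbij, ?_, ?_, ?_⟩
  · intro a ha
    ext u
    change a (F u) = F (a u)
    by_cases hu : ∃ a ∈ A, a x = u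
    · obtain ⟨a', ha', rfl⟩ := hu
      rw [hF _ ha']
      exact (hF (a * a') (A.mul_mem ha ha')).symm
    · rw [hF' u hu, hF']
      rintro ⟨a', ha', h⟩
      apply hu
      refine ⟨a⁻¹ * a', A.mul_mem (A.inv_mem ha) ha', ?_⟩
      rw [Equiv.Perm.mul_apply, h, inv_ap]
  · exact hF 1 A.one_mem
  · exact hF'

/-- The main step: some point has period 3, 4 or 5 under the centralizing permutation. -/
theorem period [Finite V] {A : Subgroup (Equiv.Perm V)} {x y : V} (hR : ¬ Rel A x y y x)
    {b : Equiv.Perm V} (hbU : ∀ U : Set V, ∃ a ∈ A, a '' U = b '' U)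
    (hab : ∃ a ∈ A, b x = a y ∧ b y = a x) {f : Equiv.Perm V} (hf : ∀ a ∈ A, a * f = f * a)
    (hfx : f x = y) (hk : ∃ k ∈ A, k x = y) :
    f x ≠ x ∧ f (f x) ≠ x ∧ ((f ^ 3) x = x ∨ (f ^ 4) x = x ∨ (f ^ 5) x = x) := by
  have h1 : f x ≠ x := by
    intro h
    rw [hfx] at h
    apply hR
    rw [h]
    exact ⟨1, A.one_mem, rfl, rfl⟩
  have h2 : f (f x) ≠ x := by
    intro h
    obtain ⟨k, hk, hky⟩ := hk
    apply hR
    refine ⟨k, hk, hky, ?_⟩
    rw [← hfx, comm_ap (hf k hk), hky, ← hfx]
    exact h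
  refine ⟨h1, h2, ?_⟩
  -- `b` reverses the cycle of `x`
  obtain ⟨a₀, ha₀, h3, h4⟩ := hab
  have hbase : f (b (f x)) = b x := by
    rw [hfx, h4, ← comm_ap (hf a₀ ha₀), hfx, h3]
  have hpair : ∀ u, b (f u) = f (b u) ∨ f (b (f u)) = b u := by
    intro u
    obtain ⟨a, ha, hau⟩ := hbU {u, f u}
    rw [Set.image_pair, Set.image_pair] at hau
    rcases Set.pair_eq_pair_iff.1 hau with ⟨h5, h6⟩ | ⟨h5, h6⟩
    · left
      rw [← h6, ← h5, comm_ap (hf a ha)]
    · right
      rw [← h5, ← h6, comm_ap (hf a ha)]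
  have hrev : ∀ k : ℕ, f (b ((f ^ (k + 1)) x)) = b ((f ^ k) x) := by
    intro k
    induction k with
    | zero => simpa using hbase
    | succ k ih =>
      rcases hpair ((f ^ (k + 1)) x) with h5 | h5
      · exfalso
        rw [ih] at h5
        have h6 := b.injective h5
        apply h2
        have h7 : (f ^ k) (f (f x)) = (f ^ k) x := by
          rw [← h6]
          rw [← Equiv.Perm.mul_apply, ← Equiv.Perm.mul_apply, ← Equiv.Perm.mul_apply]
          congr 1
          rw [← pow_succ, ← pow_succ, pow_succ' f (k + 1)]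
        exact (f ^ k).injective h7
      · rw [pow_succ' f (k + 1)]
        exact h5
  have e1 : f (b (f x)) = b x := hbase
  have e2 : f (b (f (f x))) = b (f x) := by
    have := hrev 1
    simpa [pow_succ] using this
  have e3 : f (b (f (f (f x)))) = b (f (f x)) := by
    have := hrev 2
    simpa [pow_succ] using this
  -- apply the hypothesis to `{x, f x, f³ x}`
  obtain ⟨a, ha, haU⟩ := hbU {x, f x, f (f (f x))}
  set t := b (f (f (f x))) with ht
  have e4 : b (f x) = f (f t) := by rw [← e2, ← e3]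
  have e5 : b x = f (f (f t)) := by rw [← e1, e4]
  rw [Set.image_insert_eq, Set.image_pair, Set.image_insert_eq, Set.image_pair, ← ht, e4, e5,
    comm_ap (hf a ha), comm_ap (hf a ha), comm_ap (hf a ha), comm_ap (hf a ha)] at haU
  set s := a x with hs
  -- transfer from `s` and `t`
  have hpow : ∀ k : ℕ, (f ^ k) s = s → (f ^ k) x = x := by
    intro k h
    rw [hs, ← comm_pow (hf a ha)] at h
    exact a.injective h
  have m1 : f s ≠ s := fun h => h1 (by have := hpow 1 (by simpa using h); simpa using this)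
  have m2 : f (f s) ≠ s := fun h => h2 (by
    have := hpow 2 (by simpa [pow_succ] using h); simpa [pow_succ] using this)
  by_contra hcon
  push Not at hcon
  obtain ⟨c3, c4, c5⟩ := hcon
  have m3 : f (f (f s)) ≠ s := fun h => c3 (hpow 3 (by simpa [pow_succ] using h))
  have m4 : f (f (f (f s))) ≠ s := fun h => c4 (hpow 4 (by simpa [pow_succ] using h))
  have m5 : f (f (f (f (f s)))) ≠ s := fun h => c5 (hpow 5 (by simpa [pow_succ] using h))
  have hs1 : s ∈ ({f (f (f t)), f (f t), t} : Set V) := by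
    rw [← haU]; simp
  have hs2 : f s ∈ ({f (f (f t)), f (f t), t} : Set V) := by
    rw [← haU]; simp
  have hs3 : f (f (f s)) ∈ ({f (f (f t)), f (f t), t} : Set V) := by
    rw [← haU]; simp
  simp only [Set.mem_insert_iff, Set.mem_singleton_iff] at hs1 hs2 hs3
  rcases hs1 with h | h | h
  · -- `s = f³ t`
    rcases hs2 with h' | h' | h'
    · exact m1 (h'.trans h.symm)
    · apply m2
      rw [h', ← h]
    · apply m4
      rw [h', ← h]
  · -- `s = f² t`
    rcases hs3 with h' | h' | h'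
    · rw [← h] at h'
      exact m2 (f.injective h')
    · exact m3 (h'.trans h.symm)
    · apply m5
      rw [h', ← h]
  · -- `s = t`
    rcases hs2 with h' | h' | h'
    · rw [← h] at h'
      exact m2 (f.injective h').symm
    · rw [← h] at h'
      exact m1 (f.injective h').symm
    · exact m1 (h'.trans h.symm)

/-- **Structure theorem.** -/
theorem structure_theorem [Finite V] {A : Subgroup (Equiv.Perm V)} (hA : IsDGR A)
    (hB : ¬ IsBGR A) :
    ∃ (x : V) (f : Equiv.Perm V) (m : ℕ), (m = 3 ∨ m = 4 ∨ m = 5) ∧ (∀ a ∈ A, a * f = f * a) ∧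
      (∀ u, (∃ a ∈ A, a x = u) → Function.minimalPeriod f u = m ∧ ∃ a ∈ A, a u = f u) ∧
      (∀ u, (¬ ∃ a ∈ A, a x = u) → f u = u) := by
  obtain ⟨b, hb, hbU⟩ := exists_of_not_isBGR hB
  obtain ⟨x, y, hR, hab⟩ := exists_pair hA hb hbU
  have hfix := eq_of_rel hR hbU hab
  have hk : ∃ k ∈ A, k x = y := by
    obtain ⟨a, ha, h1, h2⟩ := hab
    obtain ⟨a', ha', h3⟩ := hbU {x}
    rw [Set.image_singleton, Set.image_singleton, Set.singleton_eq_singleton_iff] at h3
    refine ⟨a⁻¹ * a', A.mul_mem (A.inv_mem ha) ha', ?_⟩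
    rw [Equiv.Perm.mul_apply, h3, h1, inv_ap]
  obtain ⟨f, hf, hfx, hfo⟩ := exists_centralizing A x y hfix hk
  obtain ⟨p1, p2, p3⟩ := period hR hbU hab hf hfx hk
  have hper : ∀ m : ℕ, (m = 3 ∨ m = 4 ∨ m = 5) → (f ^ m) x = x →
      Function.minimalPeriod f x = m := by
    intro m hm hmx
    have h1 : Function.IsPeriodicPt f m x := hmx
    have h2 : Function.minimalPeriod f x ∣ m := h1.minimalPeriod_dvd
    have h3 : Function.minimalPeriod f x ≠ 1 := by
      intro h
      exact p1 (Function.minimalPeriod_eq_one_iff_isFixedPt.1 h)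
    have h4 : Function.minimalPeriod f x ≠ 2 := by
      intro h
      have h5 := Function.isPeriodicPt_minimalPeriod f x
      rw [h] at h5
      exact p2 h5
    have h5 : 0 < Function.minimalPeriod f x := Function.minimalPeriod_pos_of_mem_periodicPts
      ⟨m, by omega, h1⟩
    have h6 := Nat.le_of_dvd (by omega) h2
    rcases hm with rfl | rfl | rfl <;> interval_cases Function.minimalPeriod f x <;> omega
  obtain ⟨m, hm, hmx⟩ : ∃ m, (m = 3 ∨ m = 4 ∨ m = 5) ∧ Function.minimalPeriod f x = m := by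
    rcases p3 with h | h | h
    · exact ⟨3, Or.inl rfl, hper 3 (Or.inl rfl) h⟩
    · exact ⟨4, Or.inr (Or.inl rfl), hper 4 (Or.inr (Or.inl rfl)) h⟩
    · exact ⟨5, Or.inr (Or.inr rfl), hper 5 (Or.inr (Or.inr rfl)) h⟩
  refine ⟨x, f, m, hm, hf, ?_, hfo⟩
  rintro u ⟨a, ha, rfl⟩
  constructor
  · rw [← hmx]
    have key : ∀ k : ℕ, Function.IsPeriodicPt f k (a x) ↔ Function.IsPeriodicPt f k x := by
      intro k
      have h1 := comm_pow (hf a ha) k x
      constructor
      · intro h
        have h2 : (f ^ k) (a x) = a x := h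
        rw [← h1] at h2
        exact a.injective h2
      · intro h
        have h2 : (f ^ k) x = x := h
        rw [h2] at h1
        exact h1.symm
    apply Nat.dvd_antisymm
    · rw [← Function.isPeriodicPt_iff_minimalPeriod_dvd, key]
      exact Function.isPeriodicPt_minimalPeriod f x
    · rw [← Function.isPeriodicPt_iff_minimalPeriod_dvd, ← key]
      exact Function.isPeriodicPt_minimalPeriod f (a x)
  · obtain ⟨k, hk, hky⟩ := hk
    refine ⟨a * k * a⁻¹, A.mul_mem (A.mul_mem ha hk) (A.inv_mem ha), ?_⟩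
    rw [Equiv.Perm.mul_apply, Equiv.Perm.mul_apply, inv_ap, hky, ← hfx, comm_ap (hf a ha)]

end Pool.Agent.D0H74.DGR
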